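import Pool.Agent.H39.Newt2.Base

/-!
# Project NEWTON2 (MP_432c1b_ag): module TEM
-/

set_option autoImplicit false

namespace Pool.Newt2

open MvPolynomial Pool.Agent.H39.MonoR Pool.Agent.H75.Mono Pool.Newt

open Classical in
theorem sTem (hSum : SSum) (hTea : STea) : STem := by
  intro σ I _ _ a X hX0 hX1 i l hil c φ γ hφ hγ hφi
  set ξ0 : Co σ I := some (Sum.inr i) with hξ0
  set s : Co σ I → ℤ := lam a (Pi.single l 1) 0 with hs
  have hs0 : s ξ0 = 1 := by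
    show (∑ l', (Pi.single l 1 : σ → ℤ) l' * (a i l' : ℤ)) - 0 = 1
    rw [Finset.sum_eq_single l]
    · simp [hil]
    · intro b _ hb
      simp [Pi.single_eq_of_ne hb]
    · intro h
      exact absurd (Finset.mem_univ l) h
  obtain ⟨Φ₀, h1, h2, h3⟩ := hTea {ξ : Co σ I // ξ ≠ ξ0} (fun ξ => s ξ) (fun ξ => φ ξ)
  set Φ : Co σ I → Co σ I → ℤ → ℝ := fun ξ ξ' =>
    if h : ξ ≠ ξ0 ∧ ξ' ≠ ξ0 then Φ₀ ⟨ξ, h.1⟩ ⟨ξ', h.2⟩ else (fun v => γ (v - 1)) with hΦ
  have hΦ1 : ∀ ξ ξ' (h : ξ ≠ ξ0) (h' : ξ' ≠ ξ0), Φ ξ ξ' = Φ₀ ⟨ξ, h⟩ ⟨ξ', h'⟩ := by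
    intro ξ ξ' h h'
    simp only [hΦ]
    rw [dif_pos ⟨h, h'⟩]
  have hΦ2 : ∀ ξ, Φ ξ ξ0 = fun v => γ (v - 1) := by
    intro ξ
    simp only [hΦ]
    rw [dif_neg (fun h => h.2 rfl)]
  -- thresholds
  obtain ⟨c', hc'⟩ : ∃ c' : ℕ, 1 ≤ c' ∧ ∀ ξ, (s ξ).natAbs ≤ c' := by
    refine ⟨(∑ ξ, (s ξ).natAbs) + 1, by omega, fun ξ => ?_⟩
    have := Finset.single_le_sum (f := fun ξ => (s ξ).natAbs) (fun _ _ => Nat.zero_le _)
      (Finset.mem_univ ξ)
    exact this.trans (Nat.le_succ _)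
  have hΦT : ∀ ξ, ξ ≠ ξ0 → ∀ ξ', Thr (c + c') (Φ ξ ξ') := by
    intro ξ h ξ'
    by_cases h' : ξ' = ξ0
    · rw [h', hΦ2]
      exact hγ.shift hc'.1
    · rw [hΦ1 ξ ξ' h h']
      exact (hφ ξ').var (hc'.2 ξ') (h3 ⟨ξ, h⟩ ⟨ξ', h'⟩)
  refine ⟨Φ, ?_, ?_⟩
  · ext N
    rw [map_sum]
    simp only [Ser, PowerSeries.coeff_mk]
    -- the product over all coordinates
    have hprod : ∀ (g : Co σ I → ℝ), ∏ ξ, g ξ = g ξ0 * ∏ ξ : {ξ : Co σ I // ξ ≠ ξ0}, g ξ := by
      intro g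
      rw [← Finset.mul_prod_erase Finset.univ g (Finset.mem_univ ξ0)]
      congr 1
      exact Finset.prod_subtype (Finset.univ.erase ξ0) (fun x => by simp) g
    set P : (σ → ℤ) → ℝ := fun u => ∏ ξ : {ξ : Co σ I // ξ ≠ ξ0}, φ ξ (lam a u N ξ) with hP
    set P' : (σ → ℤ) → ℝ := fun u => ∏ ξ : {ξ : Co σ I // ξ ≠ ξ0}, φ ξ (lam a u N ξ - s ξ)
      with hP'
    have hshift : ∀ (u : σ → ℤ) ξ, lam a (u - Pi.single l 1) N ξ = lam a u N ξ - s ξ := by
      intro u ξ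
      have := lam_sub a u (Pi.single l 1) N 0 ξ
      rw [sub_zero] at this
      exact this
    -- summability
    have hS1 : Summable fun u : σ → ℤ =>
        γ (lam a u N ξ0 - 1) * P u * X ^ (∑ l, u l) := by
      have hT : ∀ ξ, Thr (c + c') (Function.update φ ξ0 (fun v => γ (v - 1)) ξ) := by
        intro ξ
        by_cases h : ξ = ξ0
        · rw [h, Function.update_self]
          exact hγ.shift hc'.1
        · rw [Function.update_of_ne h]
          exact (hφ ξ).mono (Nat.le_add_right _ _)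
      refine (hSum σ I a X hX0 hX1 (c + c') _ hT N).congr fun u => ?_
      rw [hprod]
      congr 2
      · rw [Function.update_self]
      · refine Finset.prod_congr rfl fun ξ _ => ?_
        rw [Function.update_of_ne ξ.2]
    have hS2 : Summable fun u : σ → ℤ =>
        X * γ (lam a u N ξ0) * P u * X ^ (∑ l, u l) := by
      have hT : ∀ ξ, Thr c (Function.update φ ξ0 γ ξ) := by
        intro ξ
        by_cases h : ξ = ξ0
        · rw [h, Function.update_self]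
          exact hγ
        · rw [Function.update_of_ne h]
          exact hφ ξ
      refine ((hSum σ I a X hX0 hX1 c _ hT N).mul_left X).congr fun u => ?_
      rw [hprod, Function.update_self]
      have : ∏ ξ : {ξ : Co σ I // ξ ≠ ξ0}, Function.update φ ξ0 γ ξ (lam a u N ξ) = P u := by
        refine Finset.prod_congr rfl fun ξ _ => ?_
        rw [Function.update_of_ne ξ.2]
      rw [this]
      ring
    -- the two parts
    have e1 : ∑' u : σ → ℤ, (∏ ξ, φ ξ (lam a u N ξ)) * X ^ (∑ l, u l) =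
        ∑' u : σ → ℤ, γ (lam a u N ξ0 - 1) * P u * X ^ (∑ l, u l) -
          ∑' u : σ → ℤ, X * γ (lam a u N ξ0) * P u * X ^ (∑ l, u l) := by
      rw [← hS1.tsum_sub hS2]
      refine tsum_congr fun u => ?_
      rw [hprod, hφi]
      simp only [hP]
      ring
    have e2 : ∑' u : σ → ℤ, X * γ (lam a u N ξ0) * P u * X ^ (∑ l, u l) =
        ∑' u : σ → ℤ, γ (lam a u N ξ0 - 1) * P' u * X ^ (∑ l, u l) := by
      rw [← (Equiv.subRight (Pi.single l 1 : σ → ℤ)).tsum_eq]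
      refine tsum_congr fun u => ?_
      rw [Equiv.subRight_apply]
      have f1 : P (u - Pi.single l 1) = P' u := by
        refine Finset.prod_congr rfl fun ξ _ => ?_
        rw [hshift]
      have f2 : (∑ l', (u - Pi.single l 1 : σ → ℤ) l') = (∑ l', u l') - 1 := by
        simp only [Pi.sub_apply, Finset.sum_sub_distrib]
        rw [Finset.sum_pi_single' l (1 : ℤ)]
        simp
      rw [f1, f2, hshift, hs0, zpow_sub_one₀ hX0.ne']
      field_simp
    rw [e1, e2]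
    have hS2' : Summable fun u : σ → ℤ =>
        γ (lam a u N ξ0 - 1) * P' u * X ^ (∑ l, u l) := by
      have := (Equiv.subRight (Pi.single l 1 : σ → ℤ)).summable_iff.mpr hS2
      refine this.congr fun u => ?_
      simp only [Function.comp, Equiv.subRight_apply]
      have f1 : P (u - Pi.single l 1) = P' u := by
        refine Finset.prod_congr rfl fun ξ _ => ?_
        rw [hshift]
      have f2 : (∑ l', (u - Pi.single l 1 : σ → ℤ) l') = (∑ l', u l') - 1 := by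
        simp only [Pi.sub_apply, Finset.sum_sub_distrib]
        rw [Finset.sum_pi_single' l (1 : ℤ)]
        simp
      rw [f1, f2, hshift, hs0, zpow_sub_one₀ hX0.ne']
      field_simp
    rw [← hS1.tsum_sub hS2']
    have hS3 : ∀ ξ ∈ Finset.univ.erase ξ0, Summable fun u : σ → ℤ =>
        (∏ ξ', Φ ξ ξ' (lam a u N ξ')) * X ^ (∑ l, u l) := by
      intro ξ hξ
      exact hSum σ I a X hX0 hX1 (c + c') _ (hΦT ξ (Finset.ne_of_mem_erase hξ)) N
    rw [← Summable.tsum_finsetSum hS3]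
    refine tsum_congr fun u => ?_
    rw [← Finset.sum_mul]
    have e3 : ∑ ξ ∈ Finset.univ.erase ξ0, ∏ ξ', Φ ξ ξ' (lam a u N ξ') =
        γ (lam a u N ξ0 - 1) * ∑ ξ : {ξ : Co σ I // ξ ≠ ξ0},
          ∏ ξ' : {ξ : Co σ I // ξ ≠ ξ0}, Φ₀ ξ ξ' (lam a u N ξ') := by
      rw [Finset.mul_sum, Finset.sum_subtype (Finset.univ.erase ξ0) (p := fun ξ => ξ ≠ ξ0)
        (fun x => by simp)]
      refine Finset.sum_congr rfl fun ξ _ => ?_
      rw [hprod, hΦ2]
      congr 1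
      refine Finset.prod_congr rfl fun ξ' _ => ?_
      rw [hΦ1 ξ ξ' ξ.2 ξ'.2]
    rw [e3, ← h1 (fun ξ => lam a u N ξ)]
    simp only [hP, hP']
    ring
  · intro ξ hξ
    refine ⟨?_, hΦ2 ξ, ?_⟩
    · rw [hΦ1 ξ ξ hξ hξ, h2]
    · intro ξ' hξ'
      rw [hΦ1 ξ ξ' hξ hξ']
      exact h3 ⟨ξ, hξ⟩ ⟨ξ', hξ'⟩

end Pool.Newt2
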